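import Mathlib
import Pool.Agent.H922.Base
import Pool.Agent.H922.CDefs
import Pool.Agent.H922.FinC

set_option autoImplicit false

/-!
# The complete lists of exceptions
-/

namespace Pool.Agent.Results.MP_13dc8a_al.Complete

open Equiv MulAction Pool.Agent.H922

universe u

/-- For `t ≥ 2` and all `t`-transitive groups on the list of 2-transitive groups, the exceptions of
the four types are determined: type (a) is `ListA`, type (b) consists of the Suzuki groups for
`t = 2`, type (c) is `ListC` and the Suzuki groups for `t = 2`, and type (d) is `ListA` and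
`ListC`. For `t ≥ 3` it is enough to know that `G` has a nontrivial soluble normal subgroup or that
`G ≤ PΓL(2, q)`. -/
theorem result {X : Type u} [Fintype X] [DecidableEq X] (G : Subgroup (Perm X)) (t : ℕ)
    (ht : 2 ≤ t) (htr : TTransitive G t)
    (hG : C.OnList G ∨ (3 ≤ t ∧ (HasSol G ∨ ∃ q, C.InPGL G 2 q))) :
    (ExcA G t ↔ C.ListA G t) ∧ (ExcB G t ↔ t = 2 ∧ C.IsSz G) ∧
    (ExcC G t ↔ C.ListC G t ∨ (t = 2 ∧ C.IsSz G)) ∧
    (ExcD G t ↔ C.ListA G t ∨ C.ListC G t) := by
  rcases Nat.eq_or_lt_of_le ht with rfl | ht3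
  · rcases hG with hG | ⟨hG, -⟩
    · simpa using C.two_result htr hG
    · omega
  · have hG3 : OnList3 G := by
      rcases hG with hG | ⟨-, hG | ⟨q, hG⟩⟩
      · exact hG.three (tTransitive_of_le ht3 htr)
      · exact Or.inr (Or.inl hG)
      · exact hG.onList3
    obtain ⟨h1, h2, h3, h4⟩ := C.three_resultC ht3 htr hG3
    have h5 : ¬ (t = 2 ∧ C.IsSz G) := fun h6 => by omega
    exact ⟨h1, ⟨fun h6 => absurd h6 h2, fun h6 => absurd h6 h5⟩,
      ⟨fun h6 => Or.inl (h3.mp h6), fun h6 => h3.mpr (h6.resolve_right h5)⟩, h4⟩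

end Pool.Agent.Results.MP_13dc8a_al.Complete
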